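import Pool.Agent.Helper68.QS.St3

/-!
# Project QD, QS, BCB: invariance after base change
-/

set_option autoImplicit false

namespace Pool.Agent.Helper93.QS

open Pool.Agent.Helper68.QS Pool.Agent.Helper68.QC
open Pool.Agent.Helper61.QE (D Dx rf SU Fu FD Ab sy nuT muT syX syY Kap En Et)
open MeasureTheory Set Filter Topology Complex
open scoped ContDiff ComplexConjugate ENNReal

/-- **BCB** -/
theorem pBCB (hEQV : Pool.Agent.Helper68.QC.StEQV) (hINT : Pool.Agent.Helper61.QE.StINT)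
    (hEQI : Pool.Agent.Helper68.QS.StEQI) (hBCA : Pool.Agent.Helper68.QS.StBCA) :
    Pool.Agent.Helper68.QS.StBCB := by
  intro k κ n a t A B hD ht hDN hκ hn hAB
  obtain ⟨belm, -, hs⟩ := hBCA k κ n a t hD ht hDN
  have h2 : ‖(1 / 2 : ℂ)‖ = 1 / 2 := by
    rw [norm_div, norm_one, Complex.norm_ofNat]
  obtain ⟨ht', hcomp⟩ := hs (1 / 2) (by rw [h2]; norm_num)
  obtain ⟨t', htt⟩ : ∃ t' : ℂ, t' = (1 / 2 + t) / (1 + conj t * (1 / 2)) := ⟨_, rfl⟩
  rw [← htt] at ht' hcomp
  have bel' : Bel (max k ‖t'‖) (muD κ n t') := by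
    refine ⟨hD.belk.meas.add (hD.beln.meas.const_mul t'), fun z => ?_⟩
    unfold muD
    rcases hD.dis z with h | ⟨h, h'⟩
    · rw [h, mul_zero, add_zero]
      exact (hD.belk.le z).trans (le_max_left _ _)
    · rw [h', zero_add, norm_mul, h, mul_one]
      exact le_max_right _ _
  have inv' : InvB A (muD κ n t') := by
    unfold InvB muD
    filter_upwards [hκ, hn] with z h1 h3
    linear_combination h1 + t' * h3
  obtain ⟨R, hR⟩ := hEQV (max k ‖t'‖) (max_lt hD.lt ht') (muD κ n t') bel' A inv'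
  have e1 : (nq (muD κ n t') : ℂ → ℂ) =
      fun z => nq (fun y => (1 / 2) * mD κ n a t y) (nq (muD κ n t) z) := funext hcomp
  rw [e1] at hR
  have h3 := hINT.2.2 A B R (nq (muD κ n t)) (nq (fun y => (1 / 2) * mD κ n a t y)) hAB hR
  have belh : Bel (1 / 2) (fun y => (1 / 2) * mD κ n a t y) := by
    refine ⟨belm.meas.const_mul _, fun z => ?_⟩
    show ‖(1 / 2) * mD κ n a t z‖ ≤ 1 / 2
    rw [norm_mul, h2]
    have := belm.le z
    linarith
  have h4 := hEQI (1 / 2) (by norm_num) _ belh B R h3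
  unfold InvB at h4 ⊢
  filter_upwards [h4] with z hz
  linear_combination 2 * hz

end Pool.Agent.Helper93.QS
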